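import Pool.Agent.Helper62.GR.Goals

/-!
# Project GR (MP_08df5f_al), packet S3: some section commutes with `b`, `c`, `d`
-/

set_option autoImplicit false

namespace Pool.Agent.Helper59.GR

open Equiv Pool.Agent.Helper62.GR

/-- conjugation by `h` permutes the generators `gs` -/
def Star (h : Perm X) : Prop := ∀ s, ∃ s', h * gs s * h⁻¹ = gs s'

theorem conj_pr (g0 g1 : Perm X) (s : ℕ) : pr g0 g1 * gs s * (pr g0 g1)⁻¹ =
    pr (g0 * (if s % 3 = 2 then 1 else ga) * g0⁻¹) (g1 * gs (s + 1) * g1⁻¹) := by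
  rw [gs_eq_pr s, pr_inv, pr_mul, pr_mul]

theorem sec_conj (h2 : G_WO) (g0 g1 : Perm X) (s : ℕ) (w : List Lt)
    (hw : ev w = pr g0 g1 * gs s * (pr g0 g1)⁻¹) :
    ev (red (sec true w)) = g1 * gs (s + 1) * g1⁻¹ := by
  rw [h2.2.2.1]
  ext1 x
  have h := h2.2.1 w true x
  rw [hw, conj_pr, pr_true] at h
  exact (cn_inj h).2.symm

theorem gs_of_short (f : Perm X) (hf : f xi = xi) (s : ℕ) (w : List Lt)
    (hw : ev w = f * gs s * f⁻¹) (hl : w.length ≤ 1) : ∃ s', f * gs s * f⁻¹ = gs s' := by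
  match w, hw, hl with
  | [], hw, _ =>
    exfalso
    have h1 : f * gs s * f⁻¹ = 1 := hw.symm
    apply gs_ne_one s
    have : f * gs s = f := by
      rw [mul_inv_eq_one] at h1
      exact h1
    exact mul_eq_left.mp this
  | [l], hw, _ =>
    have h1 : f * gs s * f⁻¹ = lt l := by
      rw [← hw]
      simp [ev]
    cases l with
    | a =>
      exfalso
      apply ga_xi
      have h2 : (f * gs s * f⁻¹) xi = ga xi := by rw [h1]; rfl
      rw [← h2, Perm.mul_apply, Perm.mul_apply]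
      have h3 : f⁻¹ xi = xi := by
        rw [Perm.inv_eq_iff_eq]
        exact hf.symm
      rw [h3, gs_xi, hf]
    | b => exact ⟨0, h1⟩
    | c => exact ⟨1, h1⟩
    | d => exact ⟨2, h1⟩
  | _ :: _ :: _, _, hl =>
    exfalso
    simp at hl

theorem part1 (h2 : G_WO) (h3 : G_NS) : ∀ (n : ℕ) (f : Perm X) (w : ℕ → List Lt), Nm f →
    f xi = xi → (∀ s, alt (w s) = true) → (∀ s, ev (w s) = f * gs s * f⁻¹) →
    (w 0).length + (w 1).length + (w 2).length ≤ n →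
    ∃ h, Up f h ∧ Nm h ∧ h xi = xi ∧ Star h := by
  intro n
  induction n using Nat.strong_induction_on with
  | _ n ih =>
    intro f w hf hfx ha he hn
    by_cases hs : (w 0).length ≤ 1 ∧ (w 1).length ≤ 1 ∧ (w 2).length ≤ 1
    · refine ⟨f, Up.refl f, hf, hfx, ?_⟩
      intro s
      rw [gs_mod s]
      have h3 : s % 3 = 0 ∨ s % 3 = 1 ∨ s % 3 = 2 := by omega
      rcases h3 with h | h | h
      · rw [h]; exact gs_of_short f hfx 0 _ (he 0) hs.1
      · rw [h]; exact gs_of_short f hfx 1 _ (he 1) hs.2.1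
      · rw [h]; exact gs_of_short f hfx 2 _ (he 2) hs.2.2
    · obtain ⟨g0, g1, rfl, hg1⟩ := h3.2.1 f hf hfx
      have hNm := (h3.1 g0 g1 hf).2
      have key : ∀ s, 2 * (red (sec true (w s))).length ≤ (w s).length + 1 := by
        intro s
        have e1 := h2.2.2.2.2.2.2.1 (w s) (ha s) true
        have e2 := h2.2.2.2.2.1 (sec true (w s))
        omega
      have k0 := key 0
      have k1 := key 1
      have k2 := key 2
      obtain ⟨h, u1, u2, u3, u4⟩ := ih ((red (sec true (w 2))).length +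
        (red (sec true (w 0))).length + (red (sec true (w 1))).length) (by omega) g1
        (fun t => red (sec true (w ((t + 2) % 3)))) hNm hg1 (fun t => h2.2.2.2.1 _)
        (by
          intro t
          rw [sec_conj h2 g0 g1 ((t + 2) % 3) _ (he _)]
          rw [gs_congr (s := (t + 2) % 3 + 1) (t := t) (by omega)])
        (by
          have e0 : (0 + 2) % 3 = 2 := by norm_num
          have e1 : (1 + 2) % 3 = 0 := by norm_num
          have e2 : (2 + 2) % 3 = 1 := by norm_num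
          simp only [e0, e1, e2]
          exact le_rfl)
      exact ⟨h, Up.step g0 g1 h u1, u2, u3, u4⟩

theorem part2 (h3 : G_NS) (h : Perm X) (hN : Nm h) (hx : h xi = xi) (hS : Star h) :
    ∃ h0 h1, h = pr h0 h1 ∧ Nm h1 ∧ h1 xi = xi ∧ Star h1 ∧
      ∀ s, ∃ s', h * gs s * h⁻¹ = gs s' ∧ h1 * gs (s + 1) * h1⁻¹ = gs (s' + 1) ∧
        h0 * (if s % 3 = 2 then 1 else ga) * h0⁻¹ = (if s' % 3 = 2 then 1 else ga) := by
  obtain ⟨g0, g1, rfl, hg1⟩ := h3.2.1 h hN hx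
  have key : ∀ s, ∃ s', pr g0 g1 * gs s * (pr g0 g1)⁻¹ = gs s' ∧
      g1 * gs (s + 1) * g1⁻¹ = gs (s' + 1) ∧
        g0 * (if s % 3 = 2 then 1 else ga) * g0⁻¹ = (if s' % 3 = 2 then 1 else ga) := by
    intro s
    obtain ⟨s', hs'⟩ := hS s
    refine ⟨s', hs', ?_⟩
    rw [conj_pr, gs_eq_pr s'] at hs'
    exact ⟨(pr_inj hs').2, (pr_inj hs').1⟩
  refine ⟨g0, g1, rfl, (h3.1 g0 g1 hN).2, hg1, ?_, key⟩
  intro s
  obtain ⟨s', -, h', -⟩ := key (s + 2)
  exact ⟨s' + 1, by rw [← gs_add_three s]; exact h'⟩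

theorem claimA (h3 : G_NS) (h : Perm X) (hN : Nm h) (hx : h xi = xi) (hS : Star h) :
    h * gs 2 * h⁻¹ = gs 2 := by
  obtain ⟨h0, h1, -, -, -, -, key⟩ := part2 h3 h hN hx hS
  obtain ⟨s', e1, -, e3⟩ := key 2
  rw [e1]
  apply gs_congr
  by_contra hne
  rw [if_pos (by norm_num), if_neg (by omega), mul_one, mul_inv_cancel] at e3
  apply ga_xi
  rw [← e3]
  rfl

theorem claimB (h3 : G_NS) (h : Perm X) (hN : Nm h) (hx : h xi = xi) (hS : Star h) :
    h * gs 1 * h⁻¹ = gs 1 := by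
  obtain ⟨h0, h1, -, k1, k2, k3, key⟩ := part2 h3 h hN hx hS
  obtain ⟨s', e1, e2, -⟩ := key 1
  rw [e1]
  apply gs_congr
  have e4 := claimA h3 h1 k1 k2 k3
  rw [show (1 : ℕ) + 1 = 2 by norm_num, e4] at e2
  have := gs_inj e2
  omega

theorem claimC (h3 : G_NS) (h : Perm X) (hN : Nm h) (hx : h xi = xi) (hS : Star h) :
    h * gs 0 * h⁻¹ = gs 0 := by
  obtain ⟨h0, h1, -, k1, k2, k3, key⟩ := part2 h3 h hN hx hS
  obtain ⟨s', e1, e2, -⟩ := key 0
  rw [e1]
  apply gs_congr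
  have e4 := claimB h3 h1 k1 k2 k3
  rw [show (0 : ℕ) + 1 = 1 by norm_num, e4] at e2
  have := gs_inj e2
  omega

theorem s3 (_h1 : G_SE) (h2 : G_WO) (h3 : G_NS) : G_S3 := by
  intro f hf hfx
  have hw : ∀ s, ∃ w, alt w = true ∧ ev w = f * gs s * f⁻¹ := fun s =>
    h2.2.2.2.2.2.2.2.2.1 _ (hf.2 _ (gs_mem s))
  choose w hw1 hw2 using hw
  obtain ⟨h, u1, u2, u3, u4⟩ := part1 h2 h3 _ f w hf hfx hw1 hw2 le_rfl
  refine ⟨h, u1, u2, u3, ?_⟩
  intro s
  rw [gs_mod s]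
  have h3' : s % 3 = 0 ∨ s % 3 = 1 ∨ s % 3 = 2 := by omega
  rcases h3' with h' | h' | h'
  · rw [h']; exact mul_inv_eq_iff_eq_mul.mp (claimC h3 h u2 u3 u4)
  · rw [h']; exact mul_inv_eq_iff_eq_mul.mp (claimB h3 h u2 u3 u4)
  · rw [h']; exact mul_inv_eq_iff_eq_mul.mp (claimA h3 h u2 u3 u4)

end Pool.Agent.Helper59.GR
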